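import Pool.Agent.Lib.MP_3b2820_h61.Fin
import Pool.Agent.Lib.MP_3b2820_h61.ZSTb
import Pool.Agent.Lib.MP_3b2820_h61.MODA
import Pool.Agent.Lib.MP_3b2820_h61.MODB
import Pool.Agent.Lib.MP_3b2820_h61.LIOU

/-!
The density domination exponent can be finite and transcendental.
-/

set_option autoImplicit false

namespace Pool.Agent.Results.MP_3b2820_co.TranscendentalExponent

open Pool.Agent.Lib.MP_3b2820_co

/-- There are finite simple graphs `G`, `H` and a transcendental real number `ρ` such that `ρ` is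
the least `c ≥ 0` with `t(H, W) ≥ t(G, W) ^ c` for all graphons `W`. -/
theorem result :
    ∃ (k l : ℕ) (G : SimpleGraph (Fin k)) (H : SimpleGraph (Fin l)) (ρ : ℝ),
      IsLeast {c : ℝ | 0 ≤ c ∧ ∀ W, IsGraphon W → homDensity G W ^ c ≤ homDensity H W} ρ ∧
      Transcendental ℚ ρ :=
  H61.main_of H61.stZST H61.stMODA H61.stMODB H61.stLIOU

end Pool.Agent.Results.MP_3b2820_co.TranscendentalExponent
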